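import Pool.Agent.H16.Wij

set_option autoImplicit false

open Pool.Agent.H16.Wij

namespace Pool.Agent.Results.MP_491d6e_gt.Wijsman

universe u

/-- For every metric space `X` whose topology is completely metrizable (i.e. for every completely
metrizable space and every compatible metric on it), the hyperspace of nonempty closed sets with the
Wijsman topology of that metric is strongly α-favorable and strongly Choquet. -/
theorem result (X : Type u) [MetricSpace X] [TopologicalSpace.IsCompletelyMetrizableSpace X] :
    StronglyAlphaFavorable (Hyperspace X) (wijsmanTopology X) ∧
      StronglyChoquet (Hyperspace X) (wijsmanTopology X) :=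
  Pool.Agent.H16.Wij.main X

end Pool.Agent.Results.MP_491d6e_gt.Wijsman
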